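import Pool.Agent.P.MP_9167e9_an.StG

/-! NEW: adding one more cell to a finite admissible family. -/

noncomputable section
open scoped Classical

namespace Pool.Agent.P.MP_9167e9_an

namespace New

theorem term_le (m r L A B : ℕ) (hm : 2 ≤ m) (hr : 1 ≤ r) (hL : r ≤ L) (hAB : A + 4 ≤ B) :
    ((L : ℝ) * (m : ℝ) ^ L * ((m ^ (A * L) : ℕ) : ℝ)) / ((m ^ B : ℕ) : ℝ) ^ L ≤ 1 / 2 / 2 ^ r := by
  have h1 : L * m ^ L * m ^ (A * L) * (2 * 2 ^ r) ≤ (m ^ B) ^ L := by
    have a1 : L ≤ m ^ L := (Nat.lt_two_pow_self).le.trans (Nat.pow_le_pow_left hm L)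
    have a2 : 2 * 2 ^ r ≤ m ^ (2 * L) := by
      rw [← pow_succ']
      exact (Nat.pow_le_pow_left hm _).trans (Nat.pow_le_pow_right (by omega) (by omega))
    calc L * m ^ L * m ^ (A * L) * (2 * 2 ^ r)
        ≤ m ^ L * m ^ L * m ^ (A * L) * m ^ (2 * L) := by gcongr
      _ = m ^ ((A + 4) * L) := by
          rw [← pow_add, ← pow_add, ← pow_add]
          congr 1
          ring
      _ ≤ (m ^ B) ^ L := by
          rw [← pow_mul]
          exact Nat.pow_le_pow_right (by omega) (Nat.mul_le_mul_right L hAB)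
  have h2 : (0 : ℝ) < ((m ^ B : ℕ) : ℝ) ^ L := by
    have : 0 < m ^ B := Nat.pow_pos (by omega)
    positivity
  rw [div_div, div_le_div_iff₀ h2 (by positivity), one_mul]
  exact_mod_cast h1

theorem self_lt (m L A B : ℕ) (hm : 2 ≤ m) (hL : 1 ≤ L) (hAB : 6 * A + 3 < B) :
    (m ^ (A * L)) ^ 6 * m ^ (3 * L) < (m ^ B) ^ L := by
  rw [← pow_mul, ← pow_mul, ← pow_add]
  refine Nat.pow_lt_pow_right (by omega) ?_
  calc A * L * 6 + 3 * L = (6 * A + 3) * L := by ring
    _ < B * L := Nat.mul_lt_mul_of_pos_right hAB hL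

theorem le_pow15 (r : ℕ) : r ≤ r ^ 15 := Nat.le_self_pow (by norm_num) r

theorem main (hCore : StCore) (hSelf : StLabSelf) (hCross : StLabCross) (hCode : StCode)
    (hCell : StCell) (j h D A B : ℕ) [NeZero D] (hA' : 240003 < A) (hB' : 40004 ≤ B)
    (F : Set (Cell (cprm j h ((2 * j) ^ A) ((2 * j) ^ B) D))) (hA : Adm F) (hF : F.Finite)
    (hh : 1024 ≤ h) : ∃ R0, ∀ R, R0 ≤ R →
      ∃ K : Core j h ((2 * j) ^ A) ((2 * j) ^ B), K.R = R ∧ K.OK D ∧
        (∀ e ∈ F, e.R < R) ∧ ∀ t : K.V → Om j D (K.R ^ 14), Adm (insert (K.cell t) F) := by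
  have hj : 1000 ≤ j := hA.j_big
  have hm : 2 ≤ 2 * j := by omega
  obtain ⟨M1, hM1⟩ := (hF.image fun e => e.R).bddAbove
  obtain ⟨M2, hM2⟩ := (hF.image fun e => (2 * j + 1) ^ e.sz).bddAbove
  refine ⟨1000 + j * ((2 * j) ^ A * (2 * (2 * j) ^ B) * D) + h + (2 * j + 1) + (M1 + 1) + M2,
    fun R hR => ?_⟩
  have hlt : ∀ e ∈ F, e.R < R := fun e he => by
    have : e.R ≤ M1 := hM1 ⟨e, he, rfl⟩
    omega
  have hsz : ∀ e ∈ F, (2 * j + 1) ^ e.sz ≤ R := fun e he => by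
    have : (2 * j + 1) ^ e.sz ≤ M2 := hM2 ⟨e, he, rfl⟩
    omega
  have hR1 : 1000 ≤ R := by omega
  have hL : 1 ≤ R ^ 15 := Nat.one_le_pow _ _ (by omega)
  obtain ⟨τ, hg, hgap⟩ := hCore j (10 ^ 4 * R ^ 15) hj (by omega)
  obtain ⟨lam1, h1⟩ := hSelf j (10 ^ 4 * R ^ 15) (R ^ 15) ((2 * j) ^ A) _ τ hg (by omega) (by
    rw [Fintype.card_fin, ← mul_assoc]
    exact self_lt _ _ _ _ hm hL (by omega))
  have hex : ∀ r : (hF.toFinset.image fun e => e.R : Finset ℕ), ∃ e ∈ F, e.R = r.1 := by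
    intro r
    obtain ⟨e, he, h⟩ := Finset.mem_image.1 r.2
    exact ⟨e, hF.mem_toFinset.1 he, h⟩
  choose ce hce hcR using hex
  obtain ⟨lam2, h2⟩ := hCross j (10 ^ 4 * R ^ 15) ((2 * j) ^ B) _ _ τ (fun r => (ce r).L)
    (fun r => (2 * j) ^ (40000 * (ce r).L))
    (fun r u => Finset.univ.image fun v' => labs (ce r).τ (fun y i => ((ce r).lab y i).2.1.2) u v')
    hg (Nat.one_le_pow _ _ (by omega))
    (fun r => by
      have a1 := (hA.ok _ (hce r)).R_big
      have a2 : (ce r).L ≤ R ^ 15 := Nat.pow_le_pow_left (hlt _ (hce r)).le 15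
      exact ⟨Nat.one_le_pow _ _ (by omega), by omega⟩)
    (fun r u => by
      refine Finset.card_image_le.trans (le_of_eq ?_)
      rw [Finset.card_univ, (hA.ok _ (hce r)).card]
      congr 1
      unfold Cell.g Cell.L
      omega)
    (by
      refine le_trans (Finset.sum_le_sum (g := fun r => (1 : ℝ) / 2 / 2 ^ r.1) fun r _ => ?_) ?_
      · have a1 := (hA.ok _ (hce r)).R_big
        have := term_le (2 * j) r.1 (ce r).L 40000 B hm (by rw [← hcR]; omega)
          (by rw [← hcR]; exact le_pow15 _) hB'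
        simpa using this
      · rw [Finset.sum_coe_sort _ fun r : ℕ => (1 : ℝ) / 2 / 2 ^ r]
        exact sum_le_hasSum _ (fun _ _ => by positivity) (hasSum_geometric_two' 1))
  obtain ⟨W, hW⟩ := hCode h (Fin ((2 * j) ^ (4 * (10 ^ 4 * R ^ 15))) × Fin j) hA.prime hh (by
    rw [Fintype.card_prod, Fintype.card_fin]
    exact (Nat.even_pow.2 ⟨even_two_mul j, by omega⟩).mul_right _)
  let K : Core j h ((2 * j) ^ A) ((2 * j) ^ B) :=
    ⟨_, inferInstance, τ, fun v i => (lam1 v i, lam2 v i), W, ⟨0, Nat.pow_pos (by omega)⟩, R⟩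
  have hK : K.OK D :=
    ⟨hR1, by change _ ≤ R; omega, by change _ ≤ R; omega, by change _ ≤ R; omega,
      Fintype.card_fin _, hg, hgap, hW, h1⟩
  refine ⟨K, rfl, hK, hlt, fun t => ?_⟩
  obtain ⟨c1, c2⟩ := hCell j h _ _ D K hK t
  have hR' : (K.cell t).R = R := rfl
  refine ⟨hA.j_big, hA.prime, ?_, ?_, ?_, ?_⟩
  · rintro c (rfl | hc)
    · exact c1
    · exact hA.ok c hc
  · rintro c (rfl | hc) c' (rfl | hc') hcc
    · rfl
    · have := hlt _ hc'; omega
    · have := hlt _ hc; omega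
    · exact hA.inj c hc c' hc' hcc
  · rintro c (rfl | hc) c' (rfl | hc') hcc
    · omega
    · have := hlt _ hc'; omega
    · exact hsz c hc
    · exact hA.gap c hc c' hc' hcc
  · rintro c (rfl | hc) c' (rfl | hc') hcc
    · omega
    · have := hlt _ hc'; omega
    · refine c2 c (hA.ok c hc) fun u v v' hu hl heq => ?_
      have hr : c.R ∈ hF.toFinset.image fun e => e.R :=
        Finset.mem_image.2 ⟨c, hF.mem_toFinset.2 hc, rfl⟩
      have hcc' : ce ⟨_, hr⟩ = c := hA.inj _ (hce _) c hc (hcR _)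
      have h3 := h2 ⟨_, hr⟩ u v hu (by rw [hcc']; exact hl)
      apply h3
      rw [hcc']
      exact Finset.mem_image.2 ⟨v', Finset.mem_univ _, heq.symm⟩
    · exact hA.pc1 c hc c' hc' hcc

end New

theorem pNew (hCore : StCore) (hSelf : StLabSelf) (hCross : StLabCross) (hCode : StCode)
    (hCell : StCell) : StNew := fun j h D _ F =>
  New.main hCore hSelf hCross hCode hCell j h D _ _ (by norm_num) (by norm_num) F

end Pool.Agent.P.MP_9167e9_an
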